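import Mathlib

set_option autoImplicit false

namespace Pool.Agent.Results.MP_a65784_al.Relabelled

/-- The map `r(x,y) = (σ_x(y), σ_{σ_x(y)}⁻¹(x))`. -/
def rMap {X : Type} (σ : X → Equiv.Perm X) (p : X × X) : X × X :=
  (σ p.1 p.2, (σ (σ p.1 p.2)).symm p.1)

/-- `r × id` -/
def r12 {X : Type} (σ : X → Equiv.Perm X) (t : X × X × X) : X × X × X :=
  ((rMap σ (t.1, t.2.1)).1, (rMap σ (t.1, t.2.1)).2, t.2.2)

/-- `id × r` -/
def r23 {X : Type} (σ : X → Equiv.Perm X) (t : X × X × X) : X × X × X :=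
  (t.1, (rMap σ (t.2.1, t.2.2)).1, (rMap σ (t.2.1, t.2.2)).2)

/-- The braid relation. -/
def IsSolution {X : Type} (σ : X → Equiv.Perm X) : Prop :=
  ∀ t : X × X × X, r12 σ (r23 σ (r12 σ t)) = r23 σ (r12 σ (r23 σ t))

/-- The group generated by all `σ_x` is transitive. -/
def Indecomposable {X : Type} (σ : X → Equiv.Perm X) : Prop :=
  ∀ x y : X, ∃ g ∈ Subgroup.closure (Set.range σ), g x = y

/-- `α` and `β` describe `σ` on `Y × Z`; in particular the fibres over `Y` are blocks. -/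
def BlockForm {Y Z : Type} (σ : Y × Z → Equiv.Perm (Y × Z)) (β : Y → Z → Equiv.Perm Y)
    (α : Y → Z → Y → Equiv.Perm Z) : Prop :=
  ∀ y z y' z', σ (y, z) (y', z') = (β y z y', α y z y' z')

/-- The assertion of Q1. -/
def Q1 {Y Z : Type} (β : Y → Z → Equiv.Perm Y) : Prop := ∀ y y' z, β y z = β y' z

/-- The assertion of Q2. -/
def Q2 {Y Z : Type} (β : Y → Z → Equiv.Perm Y) (α : Y → Z → Y → Equiv.Perm Z) : Prop :=
  ∀ y y' y'' z z', α y z y' = α y z' y'' ↔ β y z y' = β y z' y''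

/-- The same solution after renaming the points of `X`. -/
def rename {X : Type} (e : Equiv.Perm X) (σ : X → Equiv.Perm X) (x : X) : Equiv.Perm X :=
  e * σ (e.symm x) * e⁻¹

/-- The bijection of `Y × Z` which renames the fibres by `ρ` and the points of the
fibre `{y} × Z` by `τ y`. -/
def fibrewise {Y Z : Type} (ρ : Equiv.Perm Y) (τ : Y → Equiv.Perm Z) : Equiv.Perm (Y × Z) where
  toFun p := (ρ p.1, τ p.1 p.2)
  invFun p := (ρ.symm p.1, (τ (ρ.symm p.1)).symm p.2)
  left_inv p := by simp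
  right_inv p := by simp

/-! ### Renaming -/

lemma rMap_rename {X : Type} (e : Equiv.Perm X) (σ : X → Equiv.Perm X) (p : X × X) :
    rMap (rename e σ) p = (e (rMap σ (e.symm p.1, e.symm p.2)).1,
      e (rMap σ (e.symm p.1, e.symm p.2)).2) := by
  simp only [rMap, rename, Equiv.Perm.mul_apply, Equiv.Perm.inv_def, Equiv.symm_apply_apply]
  refine Prod.ext rfl ?_
  show (e * σ (σ (e.symm p.1) (e.symm p.2)) * e⁻¹)⁻¹ p.1 = _
  rw [mul_inv_rev, mul_inv_rev, inv_inv]
  rfl

lemma isSolution_rename {X : Type} (e : Equiv.Perm X) (σ : X → Equiv.Perm X) (h : IsSolution σ) :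
    IsSolution (rename e σ) := by
  have h12 : ∀ t : X × X × X, r12 (rename e σ) t =
      (e (r12 σ (e.symm t.1, e.symm t.2.1, e.symm t.2.2)).1,
       e (r12 σ (e.symm t.1, e.symm t.2.1, e.symm t.2.2)).2.1,
       e (r12 σ (e.symm t.1, e.symm t.2.1, e.symm t.2.2)).2.2) := by
    intro t
    simp only [r12, rMap_rename, Equiv.apply_symm_apply]
  have h23 : ∀ t : X × X × X, r23 (rename e σ) t =
      (e (r23 σ (e.symm t.1, e.symm t.2.1, e.symm t.2.2)).1,
       e (r23 σ (e.symm t.1, e.symm t.2.1, e.symm t.2.2)).2.1,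
       e (r23 σ (e.symm t.1, e.symm t.2.1, e.symm t.2.2)).2.2) := by
    intro t
    simp only [r23, rMap_rename, Equiv.apply_symm_apply]
  intro t
  simp only [h12, h23, Equiv.symm_apply_apply, Prod.mk.eta]
  rw [h]

lemma indecomposable_rename {X : Type} (e : Equiv.Perm X) (σ : X → Equiv.Perm X)
    (h : Indecomposable σ) : Indecomposable (rename e σ) := by
  intro x y
  obtain ⟨g, hg, hgx⟩ := h (e.symm x) (e.symm y)
  refine ⟨e * g * e⁻¹, ?_, ?_⟩
  · have h1 : e * g * e⁻¹ = MulAut.conj e g := rfl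
    rw [h1]
    have h2 : (Subgroup.closure (Set.range σ)).map (MulAut.conj e).toMonoidHom ≤
        Subgroup.closure (Set.range (rename e σ)) := by
      rw [MonoidHom.map_closure, Subgroup.closure_le]
      rintro _ ⟨_, ⟨z, rfl⟩, rfl⟩
      refine Subgroup.subset_closure ⟨e z, ?_⟩
      simp only [rename, Equiv.symm_apply_apply]
      rfl
    exact h2 ⟨g, hg, rfl⟩
  · show e (g (e.symm x)) = y
    rw [hgx, Equiv.apply_symm_apply]

lemma injective_rename {X : Type} (e : Equiv.Perm X) (σ : X → Equiv.Perm X)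
    (h : Function.Injective σ) : Function.Injective (rename e σ) := by
  intro x y hxy
  unfold rename at hxy
  have h1 := mul_left_cancel (mul_right_cancel hxy)
  exact e.symm.injective (h h1)

/-! ### The solutions -/

/-- `σ_(i,j)(k,l) = (k + j, l + f(k + j - i))` -/
def sg {n : ℕ} (f : ZMod n → ZMod n) (x : ZMod n × ZMod n) : Equiv.Perm (ZMod n × ZMod n) where
  toFun p := (p.1 + x.2, p.2 + f (p.1 + x.2 - x.1))
  invFun p := (p.1 - x.2, p.2 - f (p.1 - x.1))
  left_inv p := by simp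
  right_inv p := by simp

lemma rMap_sg {n : ℕ} (f : ZMod n → ZMod n) (hf : ∀ t, f (-t) = f t) (i j k l : ZMod n) :
    rMap (sg f) ((i, j), (k, l)) =
      ((k + j, l + f (k + j - i)), (i - (l + f (k + j - i)), j - f (k + j - i))) := by
  have h : f (i - (k + j)) = f (k + j - i) := by rw [← hf]; congr 1; ring
  show ((k + j, l + f (k + j - i)), (i - (l + f (k + j - i)), j - f (i - (k + j)))) = _
  rw [h]

lemma isSolution_sg {n : ℕ} (f : ZMod n → ZMod n) (hf : ∀ t, f (-t) = f t) :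
    IsSolution (sg f) := by
  rintro ⟨⟨i, j⟩, ⟨k, l⟩, ⟨m, w⟩⟩
  simp only [r12, r23, rMap_sg f hf]
  set a := f (k + j - i) with ha
  have h1 : m + (j - a) - (i - (l + a)) = m + l + j - i := by ring
  set b := f (m + l + j - i) with hb
  have h2 : m + (j - a) + (l + a) - (k + j) = m + l - k := by ring
  set c := f (m + l - k) with hc
  have h3 : k - (w + c) + (j - b) - (i - (w + c + b)) = k + j - i := by ring
  rw [h1, ← hb, h2, ← hc, h3, ← ha]
  refine Prod.ext (Prod.ext ?_ ?_) (Prod.ext (Prod.ext ?_ ?_) (Prod.ext ?_ ?_)) <;> simp only <;> ring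

/-- `f = δ_0` -/
def dl {n : ℕ} (t : ZMod n) : ZMod n := if t = 0 then 1 else 0

lemma dl_neg {n : ℕ} (t : ZMod n) : dl (-t) = dl t := by simp [dl]

lemma injective_sg {n : ℕ} (hn : 1 < n) : Function.Injective (sg (n := n) dl) := by
  have : Fact (1 < n) := ⟨hn⟩
  rintro ⟨i, j⟩ ⟨i', j'⟩ h
  have h1 : ∀ k l, ((k + j, l + dl (k + j - i)) : ZMod n × ZMod n) =
      (k + j', l + dl (k + j' - i')) := by
    intro k l
    exact congrArg (fun e : Equiv.Perm (ZMod n × ZMod n) => e (k, l)) h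
  have hj : j = j' := by
    have := congrArg Prod.fst (h1 0 0)
    simpa using this
  subst hj
  have h2 := congrArg Prod.snd (h1 (i - j) 0)
  simp only [sub_add_cancel, sub_self, zero_add] at h2
  have h3 : i - i' = 0 := by
    by_contra hne
    simp [dl, hne] at h2
  rw [sub_eq_zero.mp h3]

lemma sg_pow {n : ℕ} (k l : ZMod n) (m : ℕ) :
    ((sg (n := n) dl (k, 0)) ^ m) (k, l) = (k, l + (m : ZMod n)) := by
  induction m with
  | zero => simp
  | succ m ih =>
    rw [pow_succ', Equiv.Perm.mul_apply, ih]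
    show ((k + 0, l + (m : ZMod n) + dl (k + 0 - k)) : ZMod n × ZMod n) = _
    simp [dl, add_assoc]

lemma indecomposable_sg {n : ℕ} (hn : 1 < n) : Indecomposable (sg (n := n) dl) := by
  have : NeZero n := ⟨by omega⟩
  rintro ⟨k, l⟩ ⟨k', l'⟩
  set c : ZMod n := l + dl (k + (k' - k) - 0) with hc
  refine ⟨(sg dl (k', 0)) ^ (l' - c).val * sg dl (0, k' - k),
    mul_mem (pow_mem (Subgroup.subset_closure (Set.mem_range_self _)) _)
      (Subgroup.subset_closure (Set.mem_range_self _)), ?_⟩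
  rw [Equiv.Perm.mul_apply]
  have h1 : sg dl (0, k' - k) (k, l) = (k', c) := by
    show ((k + (k' - k), l + dl (k + (k' - k) - 0)) : ZMod n × ZMod n) = _
    rw [← hc]
    congr 1
    ring
  rw [h1, sg_pow, ZMod.natCast_zmod_val]
  congr 1
  ring

/-! ### Block form -/

section
variable {n : ℕ} (ρ : Equiv.Perm (ZMod n)) (τ : ZMod n → Equiv.Perm (ZMod n))

lemma rename_sg (u j u' l : ZMod n) :
    rename (fibrewise ρ τ) (sg dl) (ρ u, τ u j) (ρ u', τ u' l) =
      (ρ (u' + j), τ (u' + j) (l + dl (u' + j - u))) := by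
  have h1 : ∀ a b, (fibrewise ρ τ).symm (ρ a, τ a b) = (a, b) := by
    intro a b
    exact (fibrewise ρ τ).symm_apply_apply (a, b)
  show fibrewise ρ τ (sg dl ((fibrewise ρ τ).symm (ρ u, τ u j))
    ((fibrewise ρ τ).symm (ρ u', τ u' l))) = _
  rw [h1, h1]
  rfl

/-- the permutations `β` -/
def bt (y z : ZMod n) : Equiv.Perm (ZMod n) :=
  ρ.symm.trans ((Equiv.addRight ((τ (ρ.symm y)).symm z)).trans ρ)

/-- the permutations `α` -/
def al (y z y' : ZMod n) : Equiv.Perm (ZMod n) :=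
  (τ (ρ.symm y')).symm.trans
    ((Equiv.addRight (dl (ρ.symm y' + (τ (ρ.symm y)).symm z - ρ.symm y))).trans
      (τ (ρ.symm y' + (τ (ρ.symm y)).symm z)))

lemma blockForm_sg : BlockForm (rename (fibrewise ρ τ) (sg (n := n) dl)) (bt ρ τ) (al ρ τ) := by
  intro y z y' z'
  have h := rename_sg ρ τ (ρ.symm y) ((τ (ρ.symm y)).symm z) (ρ.symm y')
    ((τ (ρ.symm y')).symm z')
  simp only [Equiv.apply_symm_apply] at h
  rw [h]
  rfl

lemma not_Q2 (hn : 2 < n) (β : ZMod n → ZMod n → Equiv.Perm (ZMod n))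
    (α : ZMod n → ZMod n → ZMod n → Equiv.Perm (ZMod n))
    (hB : BlockForm (rename (fibrewise ρ τ) (sg (n := n) dl)) β α) : ¬ Q2 β α := by
  intro h
  have hβ : ∀ u j u', β (ρ u) (τ u j) (ρ u') = ρ (u' + j) := by
    intro u j u'
    have h1 := hB (ρ u) (τ u j) (ρ u') (τ u' 0)
    rw [rename_sg] at h1
    exact (congrArg Prod.fst h1).symm
  have hα : ∀ u j u' l, α (ρ u) (τ u j) (ρ u') (τ u' l) =
      τ (u' + j) (l + dl (u' + j - u)) := by
    intro u j u' l
    have h1 := hB (ρ u) (τ u j) (ρ u') (τ u' l)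
    rw [rename_sg] at h1
    exact (congrArg Prod.snd h1).symm
  have hτ : ∀ u' u'' l, τ u' l = τ u'' l := by
    intro u' u'' l
    have h1 := (h (ρ 0) (ρ u') (ρ u'') (τ 0 (u'' - u')) (τ 0 0)).2 (by
      rw [hβ, hβ]; congr 1; ring)
    have h2 := congrArg (fun e : Equiv.Perm (ZMod n) => e (τ u' l)) h1
    simp only [hα] at h2
    have h3 := hα 0 0 u'' ((τ u'').symm (τ u' l))
    rw [Equiv.apply_symm_apply] at h3
    rw [h3] at h2
    have e1 : u' + (u'' - u') = u'' := by ring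
    rw [e1, add_zero] at h2
    have h4 := add_right_cancel ((τ u'').injective h2)
    have h5 := congrArg (τ u'') h4
    rw [Equiv.apply_symm_apply] at h5
    exact h5.symm
  have h1 := (h (ρ 0) (ρ 1) (ρ (-1)) (τ 0 0) (τ 0 0)).1 (by
    ext1 z
    obtain ⟨l, rfl⟩ := (τ 1).surjective z
    rw [hα, hτ 1 (-1) l, hα, add_zero, add_zero, sub_zero, sub_zero, dl_neg, hτ 1 (-1)])
  rw [hβ, hβ] at h1
  have h2 := ρ.injective h1
  rw [add_zero, add_zero] at h2
  have h3 : ((2 : ℕ) : ZMod n) = 0 := by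
    have : (1 : ZMod n) + 1 = 0 := by
      nth_rewrite 1 [h2]
      ring
    push_cast
    rw [← this]
    norm_num
  rw [ZMod.natCast_eq_zero_iff] at h3
  exact absurd (Nat.le_of_dvd (by norm_num) h3) (by omega)

end

/-- renaming nothing -/
lemma rename_one {n : ℕ} : rename (fibrewise 1 fun _ => 1) (sg (n := n) dl) = sg dl := by
  funext x
  ext1 p
  rfl

/-- **Main result.** -/
theorem result :
    (∀ p : ℕ, p.Prime → ∃ (σ : ZMod p × ZMod p → Equiv.Perm (ZMod p × ZMod p))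
      (β : ZMod p → ZMod p → Equiv.Perm (ZMod p))
      (α : ZMod p → ZMod p → ZMod p → Equiv.Perm (ZMod p)),
      IsSolution σ ∧ Indecomposable σ ∧ Function.Injective σ ∧ BlockForm σ β α ∧ ¬ Q1 β) ∧
    (∀ p : ℕ, p.Prime → p ≠ 2 → ∃ (σ : ZMod p × ZMod p → Equiv.Perm (ZMod p × ZMod p))
      (β : ZMod p → ZMod p → Equiv.Perm (ZMod p))
      (α : ZMod p → ZMod p → ZMod p → Equiv.Perm (ZMod p)),
      IsSolution σ ∧ Indecomposable σ ∧ Function.Injective σ ∧ BlockForm σ β α ∧ Q1 β ∧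
      ¬ Q2 β α ∧
      ∀ (ρ : Equiv.Perm (ZMod p)) (τ : ZMod p → Equiv.Perm (ZMod p))
        (β' : ZMod p → ZMod p → Equiv.Perm (ZMod p))
        (α' : ZMod p → ZMod p → ZMod p → Equiv.Perm (ZMod p)),
        BlockForm (rename (fibrewise ρ τ) σ) β' α' → ¬ Q2 β' α') := by
  refine ⟨fun p hp => ?_, fun p hp hp2 => ?_⟩
  · haveI : Fact (1 < p) := ⟨hp.one_lt⟩
    let τ : ZMod p → Equiv.Perm (ZMod p) := fun y => if y = 0 then Equiv.addRight 1 else 1
    refine ⟨rename (fibrewise 1 τ) (sg dl), bt 1 τ, al 1 τ,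
      isSolution_rename _ _ (isSolution_sg dl dl_neg),
      indecomposable_rename _ _ (indecomposable_sg hp.one_lt),
      injective_rename _ _ (injective_sg hp.one_lt), blockForm_sg 1 τ, ?_⟩
    intro h
    have h1 := congrArg (fun e : Equiv.Perm (ZMod p) => e 0) (h 0 1 1)
    have h2 : bt 1 τ 0 1 0 = 0 := by
      show (0 : ZMod p) + (τ 0).symm 1 = 0
      have : τ 0 = Equiv.addRight 1 := if_pos rfl
      rw [this]
      simp
    have h3 : bt 1 τ 1 1 0 = 1 := by
      show (0 : ZMod p) + (τ 1).symm 1 = 1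
      have : τ 1 = 1 := if_neg one_ne_zero
      rw [this]
      exact zero_add _
    rw [h2, h3] at h1
    exact zero_ne_one h1
  · have hp3 : 2 < p := lt_of_le_of_ne hp.two_le (Ne.symm hp2)
    have hB := blockForm_sg (n := p) 1 (fun _ => 1)
    refine ⟨sg dl, bt 1 (fun _ => 1), al 1 (fun _ => 1), isSolution_sg dl dl_neg,
      indecomposable_sg hp.one_lt, injective_sg hp.one_lt, ?_, ?_, ?_, ?_⟩
    · rw [rename_one] at hB
      exact hB
    · intro y y' z
      rfl
    · exact not_Q2 1 (fun _ => 1) hp3 _ _ hB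
    · intro ρ τ β' α' hB'
      exact not_Q2 ρ τ hp3 β' α' hB'

end Pool.Agent.Results.MP_a65784_al.Relabelled
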